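import Pool.Agent.helper48.TH.Spec

/-! Row SHE of project TH: Shearer's inequality for the entropy on the cube. -/

set_option autoImplicit false

namespace TP.TW

open DP MeasureTheory Finset

theorem SHE_sum {n : ℕ} (F : (Fin (n + 1) → Bool) → ℝ) :
    ∑ x, F x = ∑ y : Fin n → Bool, (F (Fin.cons false y) + F (Fin.cons true y)) := by
  rw [← Equiv.sum_comp (Fin.consEquiv fun _ : Fin (n + 1) => Bool) F, Fintype.sum_prod_type, Fintype.sum_bool, ← Finset.sum_add_distrib]
  refine Finset.sum_congr rfl fun y _ => ?_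
  rw [add_comm]
  rfl

theorem SHE_av {n : ℕ} (F : (Fin (n + 1) → Bool) → ℝ) :
    av F = av (fun y : Fin n → Bool => (F (Fin.cons false y) + F (Fin.cons true y)) / 2) := by
  unfold av
  rw [SHE_sum, ← Finset.sum_div, pow_succ, div_div, mul_comm]

theorem SHE_chain {n : ℕ} (F : (Fin (n + 1) → Bool) → ℝ) :
    Et F = av (fun y : Fin n → Bool => e2 (F (Fin.cons false y)) (F (Fin.cons true y))) / 2 +
      Et (fun y : Fin n → Bool => (F (Fin.cons false y) + F (Fin.cons true y)) / 2) := by
  unfold Et
  rw [SHE_av (fun x => ph (F x)), SHE_av F]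
  have key : av (fun y : Fin n → Bool => (ph (F (Fin.cons false y)) + ph (F (Fin.cons true y))) / 2) =
      av (fun y : Fin n → Bool => e2 (F (Fin.cons false y)) (F (Fin.cons true y))) / 2 +
      av (fun y : Fin n → Bool => ph ((F (Fin.cons false y) + F (Fin.cons true y)) / 2)) := by
    have hs : ∑ y : Fin n → Bool, (ph (F (Fin.cons false y)) + ph (F (Fin.cons true y))) / 2 =
        (∑ y : Fin n → Bool, e2 (F (Fin.cons false y)) (F (Fin.cons true y))) / 2 +
        ∑ y : Fin n → Bool, ph ((F (Fin.cons false y) + F (Fin.cons true y)) / 2) := by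
      rw [Finset.sum_div, ← Finset.sum_add_distrib]
      refine Finset.sum_congr rfl fun y _ => ?_
      simp only [e2, ph]
      ring
    unfold av
    rw [hs]
    ring
  rw [key]
  ring

/-- the coordinates of `A` other than `0` -/
def SHE_tl {n : ℕ} (A : Finset (Fin (n + 1))) : Finset (Fin n) := univ.filter fun i => i.succ ∈ A

theorem SHE_sumA {M : Type} [AddCommMonoid M] {n : ℕ} (A : Finset (Fin (n + 1))) (F : Fin (n + 1) → M) :
    ∑ i ∈ A, F i = (if (0 : Fin (n + 1)) ∈ A then F 0 else 0) + ∑ i ∈ SHE_tl A, F i.succ := by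
  have h1 : ∑ i ∈ A, F i = ∑ i, if i ∈ A then F i else 0 := by
    rw [Finset.sum_ite_mem, univ_inter]
  rw [h1, Fin.sum_univ_succ, SHE_tl, Finset.sum_filter]

theorem SHE_card {n : ℕ} (A : Finset (Fin (n + 1))) :
    #A = (if (0 : Fin (n + 1)) ∈ A then 1 else 0) + #(SHE_tl A) := by
  rw [card_eq_sum_ones, SHE_sumA, ← card_eq_sum_ones]

theorem SHE_cond {n : ℕ} (A : Finset (Fin (n + 1))) (b c : Bool) (y w : Fin n → Bool) :
    (∀ i ∈ A, (Fin.cons c w : Fin (n + 1) → Bool) i = (Fin.cons b y : Fin (n + 1) → Bool) i) ↔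
      ((0 : Fin (n + 1)) ∈ A → c = b) ∧ ∀ i ∈ SHE_tl A, w i = y i := by
  rw [Fin.forall_fin_succ]
  simp [SHE_tl]

theorem SHE_cex1 {n : ℕ} (A : Finset (Fin (n + 1))) (f : (Fin (n + 1) → Bool) → ℝ) (b : Bool) (y : Fin n → Bool)
    (h0 : (0 : Fin (n + 1)) ∈ A) :
    cex A f (Fin.cons b y) = cex (SHE_tl A) (fun w => f (Fin.cons b w)) y := by
  unfold cex
  have hc := SHE_card A
  rw [if_pos h0] at hc
  rw [show n + 1 - #A = n - #(SHE_tl A) by omega, Finset.sum_filter, SHE_sum, Finset.sum_filter]
  refine congrArg (fun z : ℝ => z / 2 ^ (n - #(SHE_tl A))) (Finset.sum_congr rfl fun w _ => ?_)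
  simp only [SHE_cond, h0, forall_const]
  cases b <;> simp

theorem SHE_cex0 {n : ℕ} (A : Finset (Fin (n + 1))) (f : (Fin (n + 1) → Bool) → ℝ) (b : Bool) (y : Fin n → Bool)
    (h0 : (0 : Fin (n + 1)) ∉ A) :
    cex A f (Fin.cons b y) = cex (SHE_tl A) (fun w => (f (Fin.cons false w) + f (Fin.cons true w)) / 2) y := by
  unfold cex
  have hc := SHE_card A
  rw [if_neg h0] at hc
  have hle : #(SHE_tl A) ≤ n := by simpa using card_le_univ (SHE_tl A)
  rw [show n + 1 - #A = (n - #(SHE_tl A)) + 1 by omega, Finset.sum_filter, SHE_sum, Finset.sum_filter, pow_succ, mul_comm, ← div_div, Finset.sum_div]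
  refine congrArg (fun z : ℝ => z / 2 ^ (n - #(SHE_tl A))) (Finset.sum_congr rfl fun w _ => ?_)
  simp only [SHE_cond, h0, false_imp_iff, true_and]
  split_ifs <;> simp

theorem SHE_hom {c u v : ℝ} (hc : 0 < c) : e2 (u / c) (v / c) = e2 u v / c := by
  have hl : ∀ w : ℝ, w / c * Real.log (w / c) = (w * Real.log w) / c - (w / c) * Real.log c := by
    intro w
    rcases eq_or_ne w 0 with rfl | hw
    · simp
    · rw [Real.log_div hw hc.ne']
      ring
  have h2 : (u / c + v / c) * Real.log ((u / c + v / c) / 2) = ((u + v) * Real.log ((u + v) / 2)) / c - ((u + v) / c) * Real.log c := by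
    have h3 : (u / c + v / c) / 2 = ((u + v) / 2) / c := by ring
    have h4 := hl ((u + v) / 2)
    rw [h3]
    calc (u / c + v / c) * Real.log ((u + v) / 2 / c) = 2 * ((u + v) / 2 / c * Real.log ((u + v) / 2 / c)) := by ring
      _ = _ := by rw [h4]; ring
  simp only [e2, ph]
  rw [hl u, hl v, h2]
  ring

theorem SHE_zero (f : (Fin 0 → Bool) → ℝ) : Et f = 0 := by
  simp [Et, av]

theorem SHE (h : LSU_stmt) (hC : CXE_stmt) : SHE_stmt := by
  intro n
  induction n with
  | zero =>
    intro f _
    refine ⟨fun i => i.elim0, fun i => i.elim0, by simp [SHE_zero], fun A => ?_⟩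
    rw [SHE_zero, Subsingleton.elim A ∅, Finset.sum_empty]
  | succ n ih =>
    intro f hf
    set f0 : (Fin n → Bool) → ℝ := fun y => f (Fin.cons false y) with hf0
    set f1 : (Fin n → Bool) → ℝ := fun y => f (Fin.cons true y) with hf1
    set g : (Fin n → Bool) → ℝ := fun y => (f0 y + f1 y) / 2 with hg
    have hf0' : ∀ y, 0 ≤ f0 y := fun y => hf _
    have hf1' : ∀ y, 0 ≤ f1 y := fun y => hf _
    have hg' : ∀ y, 0 ≤ g y := fun y => div_nonneg (add_nonneg (hf0' y) (hf1' y)) zero_le_two
    obtain ⟨d, hd0, hd1, hd2⟩ := ih g hg'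
    set d0 : ℝ := av (fun y : Fin n → Bool => e2 (f0 y) (f1 y)) / 2 with hd0'
    refine ⟨Fin.cons d0 d, ?_, ?_, ?_⟩
    · intro i
      refine Fin.cases ?_ (fun j => ?_) i
      · rw [Fin.cons_zero]
        refine div_nonneg (div_nonneg (Finset.sum_nonneg fun y _ => h.1 _ _ (hf0' y) (hf1' y)) (by positivity)) zero_le_two
      · rw [Fin.cons_succ]
        exact hd0 j
    · rw [Fin.sum_univ_succ]
      simp only [Fin.cons_zero, Fin.cons_succ]
      rw [hd1, SHE_chain f]
    · intro A
      rw [SHE_sumA]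
      simp only [Fin.cons_zero, Fin.cons_succ]
      rw [SHE_chain (cex A f)]
      by_cases h0 : (0 : Fin (n + 1)) ∈ A
      · rw [if_pos h0]
        simp only [SHE_cex1 A f _ _ h0]
        have hsum : (fun y : Fin n → Bool => (cex (SHE_tl A) (fun w => f (Fin.cons false w)) y +
            cex (SHE_tl A) (fun w => f (Fin.cons true w)) y) / 2) = cex (SHE_tl A) g := by
          funext y
          simp only [cex, hg, hf0, hf1]
          rw [← Finset.sum_div, Finset.sum_add_distrib]
          ring
        rw [hsum]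
        have hle : av (fun y : Fin n → Bool => e2 (cex (SHE_tl A) (fun w => f (Fin.cons false w)) y)
            (cex (SHE_tl A) (fun w => f (Fin.cons true w)) y)) ≤ av (fun y : Fin n → Bool => e2 (f0 y) (f1 y)) := by
          rw [← (hC n (SHE_tl A) (fun y : Fin n → Bool => e2 (f0 y) (f1 y))).2.1]
          unfold av
          refine div_le_div_of_nonneg_right (Finset.sum_le_sum fun y _ => ?_) (by positivity)
          simp only [cex]
          rw [SHE_hom (by positivity)]
          refine div_le_div_of_nonneg_right ?_ (by positivity)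
          exact h.2 _ _ (fun w => f (Fin.cons false w)) (fun w => f (Fin.cons true w)) (fun w _ => hf _) (fun w _ => hf _)
        have h3 := hd2 (SHE_tl A)
        rw [hd0']
        linarith
      · rw [if_neg h0, zero_add]
        simp only [SHE_cex0 A f _ _ h0]
        have he : ∀ u : ℝ, e2 u u = 0 := by
          intro u
          have h1 : (u + u) / 2 = u := by ring
          simp only [e2, ph, h1]
          ring
        have h2 : (fun y : Fin n → Bool => (cex (SHE_tl A) (fun w => (f (Fin.cons false w) + f (Fin.cons true w)) / 2) y +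
            cex (SHE_tl A) (fun w => (f (Fin.cons false w) + f (Fin.cons true w)) / 2) y) / 2) = cex (SHE_tl A) g := by
          funext y
          exact add_self_div_two _
        simp only [he]
        rw [h2]
        have h3 := hd2 (SHE_tl A)
        have h4 : av (fun _ : Fin n → Bool => (0 : ℝ)) = 0 := by simp [av]
        rw [h4]
        linarith

end TP.TW
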