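import Pool.Agent.helper48.TH.Spec2

set_option autoImplicit false

namespace TP.TW

open DP MeasureTheory Finset

private theorem PLR_term (R : ℕ) (N p ℓ : ℝ) (hN : 1 ≤ Real.log N) (hN0 : 0 < N) (hl : 0 ≤ ℓ) (h0 : 0 ≤ p)
    (h1 : p ≤ 1) :
    p * (Real.log (1 / p) + ℓ) ^ R ≤
      (2 ^ R + (R.factorial : ℝ) * 2 ^ R * 3) * ((p + 1 / N) * (Real.log N + ℓ) ^ R) := by
  have hll : 0 ≤ Real.log N + ℓ := by linarith
  have hpw : 0 ≤ (Real.log N + ℓ) ^ R := pow_nonneg hll R
  have hN1 : 0 < 1 / N := by positivity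
  rcases h0.eq_or_lt with h | hp
  · subst h
    rw [zero_mul]
    positivity
  set x := Real.log (1 / p) with hx
  have hx0 : 0 ≤ x := Real.log_nonneg (by rw [le_div_iff₀ hp]; linarith)
  have hpe : p = Real.exp (-x) := by
    rw [hx, one_div, Real.log_inv, neg_neg, Real.exp_log hp]
  have hsum : 0 ≤ (p + 1 / N) * (Real.log N + ℓ) ^ R := by positivity
  rcases le_or_gt x (2 * Real.log N) with hc | hc
  · have e1 : (x + ℓ) ^ R ≤ (2 * (Real.log N + ℓ)) ^ R :=
      pow_le_pow_left₀ (by linarith) (by linarith) R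
    rw [mul_pow] at e1
    calc p * (x + ℓ) ^ R ≤ p * (2 ^ R * (Real.log N + ℓ) ^ R) := mul_le_mul_of_nonneg_left e1 hp.le
      _ = 2 ^ R * (p * (Real.log N + ℓ) ^ R) := by ring
      _ ≤ 2 ^ R * ((p + 1 / N) * (Real.log N + ℓ) ^ R) := by
          apply mul_le_mul_of_nonneg_left _ (by positivity)
          exact mul_le_mul_of_nonneg_right (by linarith) hpw
      _ ≤ (2 ^ R + (R.factorial : ℝ) * 2 ^ R * 3) * ((p + 1 / N) * (Real.log N + ℓ) ^ R) := by
          apply mul_le_mul_of_nonneg_right _ hsum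
          have : 0 ≤ (R.factorial : ℝ) * 2 ^ R * 3 := by positivity
          linarith
  · have e1 : (x + ℓ) ^ R ≤ ((1 + x) * (Real.log N + ℓ)) ^ R := by
      apply pow_le_pow_left₀ (by linarith)
      nlinarith [mul_nonneg hx0 hl, mul_nonneg hx0 (sub_nonneg.2 hN)]
    rw [mul_pow] at e1
    have e2 : Real.exp (-x) ≤ 1 / N * Real.exp (-(x / 2)) := by
      have : Real.exp (-x) = Real.exp (-(x / 2)) * Real.exp (-(x / 2)) := by
        rw [← Real.exp_add]; ring_nf
      rw [this]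
      apply mul_le_mul_of_nonneg_right _ (Real.exp_pos _).le
      rw [one_div, ← Real.exp_log (inv_pos.2 hN0), Real.log_inv]
      exact Real.exp_le_exp.2 (by linarith)
    have e3 : (1 + x) ^ R ≤ (R.factorial : ℝ) * 2 ^ R * 3 * Real.exp (x / 2) := by
      have h := Real.pow_div_factorial_le_exp ((1 + x) / 2) (by linarith) R
      have hf : (0 : ℝ) < R.factorial := by exact_mod_cast R.factorial_pos
      rw [div_le_iff₀ hf, div_pow, div_le_iff₀ (by positivity)] at h
      have h2 : Real.exp ((1 + x) / 2) ≤ 3 * Real.exp (x / 2) := by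
        have : (1 + x) / 2 = 1 / 2 + x / 2 := by ring
        rw [this, Real.exp_add]
        apply mul_le_mul_of_nonneg_right _ (Real.exp_pos _).le
        have h4 : Real.exp (1 / 2 : ℝ) ≤ Real.exp 1 := Real.exp_le_exp.2 (by norm_num)
        linarith [Real.exp_one_lt_d9]
      calc (1 + x) ^ R ≤ Real.exp ((1 + x) / 2) * R.factorial * 2 ^ R := h
        _ ≤ (3 * Real.exp (x / 2)) * R.factorial * 2 ^ R := by
            apply mul_le_mul_of_nonneg_right _ (by positivity)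
            exact mul_le_mul_of_nonneg_right h2 hf.le
        _ = (R.factorial : ℝ) * 2 ^ R * 3 * Real.exp (x / 2) := by ring
    have e4 : p * (1 + x) ^ R ≤ 1 / N * ((R.factorial : ℝ) * 2 ^ R * 3) := by
      calc p * (1 + x) ^ R ≤ (1 / N * Real.exp (-(x / 2))) * ((R.factorial : ℝ) * 2 ^ R * 3 * Real.exp (x / 2)) := by
            exact mul_le_mul (hpe.le.trans e2) e3 (by positivity) (by positivity)
        _ = 1 / N * ((R.factorial : ℝ) * 2 ^ R * 3) * (Real.exp (-(x / 2)) * Real.exp (x / 2)) := by ring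
        _ = 1 / N * ((R.factorial : ℝ) * 2 ^ R * 3) := by
            rw [← Real.exp_add, neg_add_cancel, Real.exp_zero, mul_one]
    calc p * (x + ℓ) ^ R ≤ p * ((1 + x) ^ R * (Real.log N + ℓ) ^ R) := mul_le_mul_of_nonneg_left e1 hp.le
      _ = p * (1 + x) ^ R * (Real.log N + ℓ) ^ R := by ring
      _ ≤ 1 / N * ((R.factorial : ℝ) * 2 ^ R * 3) * (Real.log N + ℓ) ^ R :=
          mul_le_mul_of_nonneg_right e4 hpw
      _ = (R.factorial : ℝ) * 2 ^ R * 3 * ((0 + 1 / N) * (Real.log N + ℓ) ^ R) := by ring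
      _ ≤ (R.factorial : ℝ) * 2 ^ R * 3 * ((p + 1 / N) * (Real.log N + ℓ) ^ R) := by
          apply mul_le_mul_of_nonneg_left _ (by positivity)
          exact mul_le_mul_of_nonneg_right (by linarith) hpw
      _ ≤ (2 ^ R + (R.factorial : ℝ) * 2 ^ R * 3) * ((p + 1 / N) * (Real.log N + ℓ) ^ R) := by
          apply mul_le_mul_of_nonneg_right _ hsum
          have : (0 : ℝ) ≤ 2 ^ R := by positivity
          linarith

theorem PLR : PLR_stmt := by
  intro R
  refine ⟨2 ^ R + (R.factorial : ℝ) * 2 ^ R * 3, by positivity, ?_⟩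
  intro U p ℓ hl hp
  have hN0 : (0 : ℝ) < (#U : ℝ) + 3 := by positivity
  have hN : 1 ≤ Real.log ((#U : ℝ) + 3) := by
    rw [Real.le_log_iff_exp_le hN0]
    have : (0 : ℝ) ≤ #U := by positivity
    linarith [Real.exp_one_lt_d9]
  have hpw : 0 ≤ (Real.log ((#U : ℝ) + 3) + ℓ) ^ R := pow_nonneg (by linarith) R
  calc ∑ z ∈ U, p z * (Real.log (1 / p z) + ℓ) ^ R
      ≤ ∑ z ∈ U, (2 ^ R + (R.factorial : ℝ) * 2 ^ R * 3) *
          ((p z + 1 / ((#U : ℝ) + 3)) * (Real.log ((#U : ℝ) + 3) + ℓ) ^ R) :=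
        Finset.sum_le_sum fun z hz => PLR_term R _ _ _ hN hN0 hl (hp z hz).1 (hp z hz).2
    _ = (2 ^ R + (R.factorial : ℝ) * 2 ^ R * 3) *
          ((∑ z ∈ U, p z + #U * (1 / ((#U : ℝ) + 3))) * (Real.log ((#U : ℝ) + 3) + ℓ) ^ R) := by
        rw [← Finset.mul_sum, ← Finset.sum_mul, Finset.sum_add_distrib, Finset.sum_const, nsmul_eq_mul]
    _ ≤ (2 ^ R + (R.factorial : ℝ) * 2 ^ R * 3) *
          ((∑ z ∈ U, p z + 1) * (Real.log ((#U : ℝ) + 3) + ℓ) ^ R) := by
        apply mul_le_mul_of_nonneg_left _ (by positivity)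
        apply mul_le_mul_of_nonneg_right _ hpw
        have : (#U : ℝ) * (1 / ((#U : ℝ) + 3)) ≤ 1 := by
          rw [mul_one_div, div_le_one hN0]; linarith
        linarith
    _ = (2 ^ R + (R.factorial : ℝ) * 2 ^ R * 3) * (∑ z ∈ U, p z + 1) *
          (Real.log ((#U : ℝ) + 3) + ℓ) ^ R := by ring

end TP.TW
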