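import Pool.Agent.helper9.TH.Spec

namespace Pool.Agent.helper57.TH

open Pool.Agent.helper9.TH

universe u

theorem S6 (hS1 : S1_stmt.{u}) (hPBb : PBb_stmt.{u}) : S6_stmt.{u} := by
  intro p G _ _ P U _ hp hI hH hU hUP hC H hPH hHt
  have hHyp : Hyp p H (P.subgroupOf H) := hS1.1 p G P H hp hH hPH
  have hcard : Nat.card H < Nat.card G := by
    rcases lt_or_eq_of_le (Nat.le_of_dvd Nat.card_pos (Subgroup.card_subgroup_dvd_card H)) with h | h
    · exact h
    · exact absurd (Subgroup.eq_top_of_card_eq H h) hHt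
  obtain ⟨L, hLn, hLc, k, hk⟩ := hI H (P.subgroupOf H) hcard hHyp
  have hUH : IsPGroup p (U.subgroupOf H) :=
    hU.comap_of_injective H.subtype H.subtype_injective
  have hUn : (U.subgroupOf H).Normal := inferInstance
  have hcomm := hPBb.2.1 p H L (U.subgroupOf H) hp hLn hLc hUn hUH
  have hL : L = ⊥ := by
    rw [eq_bot_iff]
    intro x hx
    have hxU : (x : G) ∈ U := by
      apply hC
      intro y hy
      have hyH : y ∈ H := hPH (hUP hy)
      have h := hcomm x hx ⟨y, hyH⟩ (Subgroup.mem_subgroupOf.2 hy)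
      exact congrArg Subtype.val h
    obtain ⟨m, hm⟩ := hU ⟨(x : G), hxU⟩
    have hm' : x ^ p ^ m = 1 := by
      apply Subtype.ext
      have h := congrArg Subtype.val hm
      simpa using h
    have h1 : orderOf x ∣ p ^ m := orderOf_dvd_of_pow_eq_one hm'
    have h2 : orderOf x ∣ Nat.card L := by
      have h3 := orderOf_dvd_natCard (⟨x, hx⟩ : L)
      rwa [Subgroup.orderOf_mk] at h3
    have h4 : (orderOf x).Coprime (orderOf x) :=
      Nat.Coprime.coprime_dvd_right h1 ((Nat.Coprime.coprime_dvd_left h2 hLc).pow_right m)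
    rw [Nat.coprime_self, orderOf_eq_one_iff] at h4
    exact Subgroup.mem_bot.2 h4
  have hHc : Nat.card H = p ^ k := by
    rw [← hk, hL, Subgroup.index_bot]
  apply le_antisymm _ hPH
  rw [← Subgroup.relIndex_eq_one]
  have h1 : P.relIndex H ∣ p ^ k := by
    rw [← hHc]
    exact Subgroup.relIndex_dvd_card P H
  have h2 : P.relIndex H ∣ P.index := Subgroup.relIndex_dvd_index_of_le hPH
  have h3 : (P.relIndex H).Coprime p := by
    have : (P.index).Coprime p := ((Nat.Prime.coprime_iff_not_dvd hp).2 hH.1.2).symm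
    exact Nat.Coprime.coprime_dvd_left h2 this
  have h4 : (P.relIndex H).Coprime (P.relIndex H) :=
    Nat.Coprime.coprime_dvd_right h1 (h3.pow_right k)
  exact Nat.coprime_self _ |>.1 h4

end Pool.Agent.helper57.TH
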